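import Pool.Agent.LSG.StmtsA

/-!
# Squad LSG (MP_005a41_gt), row CPE (helper99): basic isomorphisms
-/

set_option autoImplicit false

open MeasureTheory Set Topology

namespace Pool.Agent.LSG.H99

/-- Pullback along a continuous map. -/
noncomputable def pb {X Y : Type} [TopologicalSpace X] [TopologicalSpace Y] (h : Y → X)
    (hh : Continuous h) : ↥(Cp X) →L[ℝ] ↥(Cp Y) where
  toFun f := ⟨fun y => f.1 (h y), (show Continuous f.1 from f.2).comp hh⟩
  map_add' f g := rfl
  map_smul' c f := rfl
  cont := by
    refine Continuous.subtype_mk ?_ _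
    refine continuous_pi fun y => ?_
    exact (continuous_apply (h y)).comp continuous_subtype_val

/-- Restriction to the two summands and gluing. -/
noncomputable def sumE (X Y : Type) [TopologicalSpace X] [TopologicalSpace Y] :
    ↥(Cp (X ⊕ Y)) ≃L[ℝ] (↥(Cp X) × ↥(Cp Y)) where
  toFun f := (pb Sum.inl continuous_inl f, pb Sum.inr continuous_inr f)
  map_add' f g := rfl
  map_smul' c f := rfl
  invFun p := ⟨Sum.elim p.1.1 p.2.1,
    Continuous.sumElim (show Continuous p.1.1 from p.1.2) (show Continuous p.2.1 from p.2.2)⟩
  left_inv f := by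
    apply Subtype.ext
    funext z
    rcases z with z | z <;> rfl
  right_inv p := rfl
  continuous_toFun := (pb Sum.inl continuous_inl).continuous.prodMk
    (pb Sum.inr continuous_inr).continuous
  continuous_invFun := by
    refine Continuous.subtype_mk ?_ _
    refine continuous_pi fun z => ?_
    rcases z with z | z
    · exact (continuous_apply z).comp (continuous_subtype_val.comp continuous_fst)
    · exact (continuous_apply z).comp (continuous_subtype_val.comp continuous_snd)

/-- Restriction to the summands of a sigma type and gluing. -/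
noncomputable def sigE (ι : Type) (X : ι → Type) [∀ i, TopologicalSpace (X i)] :
    ↥(Cp (Σ i, X i)) ≃L[ℝ] (∀ i, ↥(Cp (X i))) where
  toFun f := fun i => pb (Sigma.mk i) continuous_sigmaMk f
  map_add' f g := rfl
  map_smul' c f := rfl
  invFun p := ⟨fun z => (p z.1).1 z.2,
    continuous_sigma fun i => (show Continuous (p i).1 from (p i).2)⟩
  left_inv f := by
    apply Subtype.ext
    funext z
    rfl
  right_inv p := rfl
  continuous_toFun := continuous_pi fun i => (pb (Sigma.mk i) continuous_sigmaMk).continuous
  continuous_invFun := by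
    refine Continuous.subtype_mk ?_ _
    refine continuous_pi fun z => ?_
    exact (continuous_apply z.2).comp (continuous_subtype_val.comp (continuous_apply z.1))

/-- Homeomorphic spaces. -/
noncomputable def homE {X Y : Type} [TopologicalSpace X] [TopologicalSpace Y] (e : X ≃ₜ Y) :
    ↥(Cp X) ≃L[ℝ] ↥(Cp Y) :=
  ContinuousLinearEquiv.equivOfInverse (pb e.symm e.symm.continuous) (pb e e.continuous)
    (fun f => by
      apply Subtype.ext
      funext x
      exact congrArg f.1 (e.symm_apply_apply x))
    (fun f => by
      apply Subtype.ext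
      funext x
      exact congrArg f.1 (e.apply_symm_apply x))

/-- Row CPE. -/
theorem cpe : CpeStmt := by
  refine ⟨?_, ?_, ?_, ?_⟩
  · intro X Y _ _ ⟨e⟩
    exact ⟨homE e⟩
  · intro X Y _ _
    exact ⟨sumE X Y⟩
  · intro ι X _
    exact ⟨sigE ι X⟩
  · intro X X' Y Y' _ _ _ _ ⟨e⟩ ⟨e'⟩
    exact ⟨(sumE X Y).trans ((e.prodCongr e').trans (sumE X' Y').symm)⟩

end Pool.Agent.LSG.H99
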